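import Mathlib

/-!
# Every r.e. predicate reduces to the halting problem of codes
-/

set_option autoImplicit false

namespace Pool.Agent.Y926.CE

/-- every r.e. predicate is reducible to the halting problem -/
theorem re_reduces {p : ℕ → Prop} (hp : REPred p) :
    ∃ f : ℕ → ℕ, Computable f ∧
      ∀ n, p n ↔ ((Denumerable.ofNat Nat.Partrec.Code (f n)).eval 0).Dom := by
  have h0 : Partrec (fun a : ℕ => Part.assert (p a) fun _ => Part.some ()) := hp
  have h1 : Partrec (fun m : ℕ =>
      (Part.assert (p m.unpair.1) fun _ => Part.some ()).map (fun _ => (0 : ℕ))) :=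
    (h0.comp (Computable.fst.comp Computable.unpair)).map (Computable.const 0).to₂
  have h2 : Nat.Partrec (fun m : ℕ =>
      (Part.assert (p m.unpair.1) fun _ => Part.some ()).map (fun _ => (0 : ℕ))) :=
    Partrec.nat_iff.1 h1
  obtain ⟨c, hc⟩ := Nat.Partrec.Code.exists_code.1 h2
  refine ⟨fun n => Encodable.encode (Nat.Partrec.Code.curry c n), ?_, ?_⟩
  · exact (Primrec.encode.comp
      (Nat.Partrec.Code.primrec₂_curry.comp (Primrec.const c) Primrec.id)).to_comp
  · intro n
    rw [Denumerable.ofNat_encode, Nat.Partrec.Code.eval_curry, hc]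
    simp [Part.dom_iff_mem]

/-- some r.e. set has a complement that is not r.e. -/
theorem exists_re_not_co : ∃ p : ℕ → Prop, REPred p ∧ ¬ REPred (fun n => ¬ p n) := by
  have hu : Partrec (fun n : ℕ => (Denumerable.ofNat Nat.Partrec.Code n).eval 0) :=
    Nat.Partrec.Code.eval_part.comp (Computable.ofNat Nat.Partrec.Code)
      (Computable.const (0 : ℕ))
  refine ⟨fun n => ((Denumerable.ofNat Nat.Partrec.Code n).eval 0).Dom, hu.dom_re, ?_⟩
  intro h
  have h1 : ComputablePred (fun n => ((Denumerable.ofNat Nat.Partrec.Code n).eval 0).Dom) :=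
    ComputablePred.computable_iff_re_compl_re'.2 ⟨hu.dom_re, h⟩
  refine ComputablePred.halting_problem 0 ?_
  have : ManyOneReducible (fun c : Nat.Partrec.Code => (Nat.Partrec.Code.eval c 0).Dom)
      (fun n => ((Denumerable.ofNat Nat.Partrec.Code n).eval 0).Dom) := by
    refine ⟨Encodable.encode, Computable.encode, ?_⟩
    intro c
    simp [Denumerable.ofNat_encode]
  exact ComputablePred.computable_of_manyOneReducible this h1

/-- preimages of r.e. sets -/
theorem re_comp {α : Type*} [Primcodable α] {q : α → Prop} (hq : REPred q) {f : ℕ → α}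
    (hf : Computable f) : REPred (fun n => q (f n)) := by
  have h0 : Partrec (fun a : α => Part.assert (q a) fun _ => Part.some ()) := hq
  exact h0.comp hf

end Pool.Agent.Y926.CE
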